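import Pool.Agent.SMt.Gen

/-! MP_72ffec_pr: comparison of the projections for ordered covariances (unit variances). -/

open MeasureTheory ProbabilityTheory Real
open scoped BigOperators ENNReal

namespace SMt

open SMx

variable {n : ℕ}

/-- `E (L + 1)² - β² ∑ cv_ij E π_i E π_j`, that is `β²` times the left side of Q1 -/
noncomputable def Ph {n : ℕ} {ι : Type} [Fintype ι] (β : ℝ) (A : Fin n → ι → ℝ) : ℝ :=
  EG A (fun x => (Lg β x + 1) ^ 2) -
    β ^ 2 * ∑ i, ∑ j, cv A i j * (EG A (fun x => pw β x i) * EG A (fun x => pw β x j))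

-- BEGIN cdq
private theorem cdq_contr (Δ : Fin n → Fin n → ℝ) (h0 : ∀ i, Δ i i = 0)
    (hs : ∀ i j, Δ i j = Δ j i) (β : ℝ) (x : Fin n → ℝ) (j : Fin n) :
    ∑ i, ∑ l, Δ i l * (β * (β * pw β x j * ((if j = l then 1 else 0) - pw β x l)) *
        ((if j = i then 1 else 0) - pw β x i) +
      β * pw β x j * (-(β * pw β x i * ((if i = l then 1 else 0) - pw β x l)))) =
      2 * β ^ 2 * (pw β x j * (qA Δ β x - vv Δ β x j)) := by
  have e : ∀ i l, Δ i l * (β * (β * pw β x j * ((if j = l then 1 else 0) - pw β x l)) *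
        ((if j = i then 1 else 0) - pw β x i) +
      β * pw β x j * (-(β * pw β x i * ((if i = l then 1 else 0) - pw β x l)))) =
      β ^ 2 * pw β x j * (2 * (Δ i l * (pw β x i * pw β x l)) -
        (if j = l then Δ i l * pw β x i else 0) - (if j = i then Δ i l * pw β x l else 0)) := by
    intro i l
    by_cases h3 : i = l
    · subst h3
      rw [h0]
      simp
    · rw [if_neg h3]
      by_cases h1 : j = l
      · have h2 : ¬ j = i := fun h => h3 (h.symm.trans h1)
        rw [if_pos h1, if_neg h2, if_pos h1, if_neg h2]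
        ring
      · rw [if_neg h1, if_neg h1]
        by_cases h2 : j = i
        · rw [if_pos h2, if_pos h2]
          ring
        · rw [if_neg h2, if_neg h2]
          ring
  rw [Finset.sum_congr rfl fun i _ => Finset.sum_congr rfl fun l _ => e i l]
  simp only [← Finset.mul_sum, Finset.sum_sub_distrib]
  have s1 : ∑ i, ∑ l, (if j = l then Δ i l * pw β x i else 0) = vv Δ β x j := by
    simp only [Finset.sum_ite_eq, Finset.mem_univ, if_true]
    unfold vv
    exact Finset.sum_congr rfl fun i _ => by rw [hs i j]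
  have s2 : ∑ i, ∑ l, (if j = i then Δ i l * pw β x l else 0) = vv Δ β x j := by
    rw [Finset.sum_comm]
    simp only [Finset.sum_ite_eq, Finset.mem_univ, if_true]
    rfl
  have s3 : ∑ i, ∑ l, Δ i l * (pw β x i * pw β x l) = qA Δ β x := rfl
  rw [s1, s2, s3]
  ring

/-- derivative of `E π_j` along the path (`SMx.interp` with `SMx.der_pw`; `Δ = dl a b` symmetric with
zero diagonal; contraction `∑_kl Δ_kl ∂_k ∂_l π_j = 2 β² π_j (qA - vv_j)`) -/
theorem der_q (a b : Fin n → Fin n → ℝ) (h0 : ∀ i, dl a b i i = 0) (β θ : ℝ)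
    (j : Fin n) :
    HasDerivAt (fun θ => EG (path a b θ) (fun x => pw β x j))
      (sin θ * cos θ * EG (path a b θ)
        (fun x => 2 * β ^ 2 * (pw β x j * (qA (dl a b) β x - vv (dl a b) β x j)))) θ := by
  have hs : ∀ i j, dl a b i j = dl a b j i := by
    intro i j
    unfold dl cv
    congr 1 <;> exact Finset.sum_congr rfl fun k _ => mul_comm _ _
  have hd1 : ∀ i, Der (fun x : Fin n → ℝ => β * pw β x j * ((if j = i then 1 else 0) - pw β x i))
      (fun l x => β * (β * pw β x j * ((if j = l then 1 else 0) - pw β x l)) *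
          ((if j = i then 1 else 0) - pw β x i) +
        β * pw β x j * (-(β * pw β x i * ((if i = l then 1 else 0) - pw β x l)))) := by
    intro i
    have h := ((der_pw β j).const_mul β).mul
      ((Der.const (if j = i then (1 : ℝ) else 0)).add ((der_pw β i).const_mul (-1)))
    have e : (fun x : Fin n → ℝ => β * pw β x j * ((if j = i then 1 else 0) - pw β x i)) =
        fun x => β * pw β x j * ((if j = i then 1 else 0) + (-1) * pw β x i) := by
      funext x
      ring
    rw [e]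
    exact h.congr fun l x => by ring
  have hg1 : ∀ i, Gr (fun x : Fin n → ℝ => β * pw β x j * ((if j = i then 1 else 0) - pw β x i)) :=
    fun i => ((Gr.pw β j).const_mul β).mul ((Gr.const _).sub (Gr.pw β i))
  have hg2 : ∀ i l, Gr (fun x : Fin n → ℝ =>
      β * (β * pw β x j * ((if j = l then 1 else 0) - pw β x l)) *
          ((if j = i then 1 else 0) - pw β x i) +
        β * pw β x j * (-(β * pw β x i * ((if i = l then 1 else 0) - pw β x l)))) :=
    fun i l => (((hg1 l).const_mul β).mul ((Gr.const _).sub (Gr.pw β i))).add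
      (((Gr.pw β j).const_mul β).mul
        ((((Gr.pw β i).const_mul β).mul ((Gr.const _).sub (Gr.pw β l))).neg))
  have h := interp a b _ _ _ (der_pw β j) hd1 (Gr.pw β j) hg1 hg2 θ
  have e0 : ∑ i, ∑ l, dl a b i l * EG (path a b θ) (fun x : Fin n → ℝ =>
      β * (β * pw β x j * ((if j = l then 1 else 0) - pw β x l)) *
          ((if j = i then 1 else 0) - pw β x i) +
        β * pw β x j * (-(β * pw β x i * ((if i = l then 1 else 0) - pw β x l)))) =
      EG (path a b θ)
        (fun x => 2 * β ^ 2 * (pw β x j * (qA (dl a b) β x - vv (dl a b) β x j))) := by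
    have e1 : (fun x : Fin n → ℝ =>
        2 * β ^ 2 * (pw β x j * (qA (dl a b) β x - vv (dl a b) β x j))) =
        fun x => ∑ i, ∑ l, dl a b i l *
          (β * (β * pw β x j * ((if j = l then 1 else 0) - pw β x l)) *
            ((if j = i then 1 else 0) - pw β x i) +
          β * pw β x j * (-(β * pw β x i * ((if i = l then 1 else 0) - pw β x l)))) := by
      funext x
      exact (cdq_contr (dl a b) h0 hs β x j).symm
    rw [e1, EG_sum Finset.univ
      (fun i => Gr.sum Finset.univ fun l => (hg2 i l).const_mul (dl a b i l))]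
    refine Finset.sum_congr rfl fun i _ => ?_
    rw [EG_sum Finset.univ (fun l => (hg2 i l).const_mul (dl a b i l))]
    refine Finset.sum_congr rfl fun l _ => ?_
    rw [EG_const_mul]
  rw [e0] at h
  exact h
-- END cdq

-- BEGIN csw
/-- Stein for `π · Δ π` (`SM3.stein_co` with `SMx.der_qA`) -/
theorem stein_qA {ι : Type} [Fintype ι] (A : Fin n → ι → ℝ) (Δ : Fin n → Fin n → ℝ)
    (hs : ∀ i j, Δ i j = Δ j i) (β : ℝ) (i : Fin n) :
    EG A (fun x => x i * qA Δ β x) =
      ∑ j, cv A i j * EG A (fun x => 2 * β * (pw β x j * (vv Δ β x j - qA Δ β x))) := by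
  refine SM3.stein_co A _ _ ((der_qA i.pos Δ hs β).congr fun j x => ?_) (Gr.qA Δ β)
    (fun j => ((Gr.pw β j).mul ((Gr.vv Δ β j).sub (Gr.qA Δ β))).const_mul _) i
  ring
-- END csw

-- BEGIN cdp
private theorem cdp_D {ι : Type} [Fintype ι] (A : Fin n → ι → ℝ) (Δ : Fin n → Fin n → ℝ)
    (hs : ∀ i j, Δ i j = Δ j i) (β : ℝ) (i : Fin n) :
    ∑ j, cv A i j * EG A (fun x => 2 * β ^ 2 * (pw β x j * (qA Δ β x - vv Δ β x j))) =
      -β * EG A (fun x => x i * qA Δ β x) := by
  rw [stein_qA A Δ hs β i, Finset.mul_sum]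
  refine Finset.sum_congr rfl fun j _ => ?_
  have h : EG A (fun x => 2 * β ^ 2 * (pw β x j * (qA Δ β x - vv Δ β x j))) =
      -β * EG A (fun x => 2 * β * (pw β x j * (vv Δ β x j - qA Δ β x))) := by
    rw [← EG_const_mul]
    congr 1
    funext x
    ring
  rw [h]
  ring

private theorem cdp_alg (c : Fin n → Fin n → ℝ) (hc : ∀ i j, c i j = c j i) (q D : Fin n → ℝ) :
    ∑ i, ∑ j, c i j * (D i * q j + q i * D j) = 2 * ∑ i, q i * ∑ j, c i j * D j := by
  have h1 : ∑ i, ∑ j, c i j * (D i * q j) = ∑ i, q i * ∑ j, c i j * D j := by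
    rw [Finset.sum_comm]
    refine Finset.sum_congr rfl fun j _ => ?_
    rw [Finset.mul_sum]
    refine Finset.sum_congr rfl fun i _ => ?_
    rw [hc i j]
    ring
  have h2 : ∑ i, ∑ j, c i j * (q i * D j) = ∑ i, q i * ∑ j, c i j * D j := by
    refine Finset.sum_congr rfl fun i _ => ?_
    rw [Finset.mul_sum]
    exact Finset.sum_congr rfl fun j _ => by ring
  have h3 : ∑ i, ∑ j, c i j * (D i * q j + q i * D j) =
      ∑ i, ∑ j, c i j * (D i * q j) + ∑ i, ∑ j, c i j * (q i * D j) := by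
    rw [← Finset.sum_add_distrib]
    refine Finset.sum_congr rfl fun i _ => ?_
    rw [← Finset.sum_add_distrib]
    exact Finset.sum_congr rfl fun j _ => by ring
  rw [h3, h1, h2, two_mul]

private theorem cdp_fin (c Δ : Fin n → Fin n → ℝ) (hc : ∀ i j, c i j = c j i) (q D X : Fin n → ℝ)
    (β s E : ℝ) (hD : ∀ i, ∑ j, c i j * D j = -β * X i) :
    -(2 * β ^ 2 * s) * E - β ^ 2 * ∑ i, ∑ j, (2 * s * Δ i j * (q i * q j) +
      c i j * (s * D i * q j + q i * (s * D j))) =
    -(2 * β ^ 2 * s) * (E + ∑ i, ∑ j, Δ i j * (q i * q j) - β * ∑ i, q i * X i) := by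
  have h1 : ∑ i, ∑ j, (2 * s * Δ i j * (q i * q j) + c i j * (s * D i * q j + q i * (s * D j))) =
      2 * s * ∑ i, ∑ j, Δ i j * (q i * q j) +
        s * ∑ i, ∑ j, c i j * (D i * q j + q i * D j) := by
    rw [Finset.mul_sum, Finset.mul_sum, ← Finset.sum_add_distrib]
    refine Finset.sum_congr rfl fun i _ => ?_
    rw [Finset.mul_sum, Finset.mul_sum, ← Finset.sum_add_distrib]
    exact Finset.sum_congr rfl fun j _ => by ring
  have h2 : ∑ i, q i * ∑ j, c i j * D j = -β * ∑ i, q i * X i := by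
    rw [Finset.mul_sum]
    refine Finset.sum_congr rfl fun i _ => ?_
    rw [hD i]
    ring
  rw [h1, cdp_alg c hc q D, h2]
  ring

/-- derivative of `Ph` along the path: `SMx.derG`, `der_q`, `pathcv` (the derivative of
`cv (path a b θ) i j` is `2 sin θ cos θ Δ_ij`), product rule, then `stein_qA` for
`∑_j cv_ij (E π_j)˙ = - sin θ cos θ β E x_i qA` -/
theorem der_Ph (hn : 0 < n) (a b : Fin n → Fin n → ℝ) (h0 : ∀ i, dl a b i i = 0) (β θ : ℝ) :
    HasDerivAt (fun θ => Ph β (path a b θ))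
      (-(2 * β ^ 2 * (sin θ * cos θ)) *
        (EG (path a b θ) (fun x => Lg β x * qA (dl a b) β x) +
          ∑ i, ∑ j, dl a b i j * (EG (path a b θ) (fun x => pw β x i) *
            EG (path a b θ) (fun x => pw β x j)) -
          β * ∑ i, EG (path a b θ) (fun x => pw β x i) *
            EG (path a b θ) (fun x => x i * qA (dl a b) β x))) θ := by
  have hΔ : ∀ i j, dl a b i j = dl a b j i := fun i j => by
    unfold dl
    rw [cvs a i j, cvs b i j]
  have hcv : ∀ i j, HasDerivAt (fun θ => cv (path a b θ) i j)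
      (2 * (sin θ * cos θ) * dl a b i j) θ := by
    intro i j
    have e : (fun θ => cv (path a b θ) i j) =
        fun θ => cos θ ^ 2 * cv a i j + sin θ ^ 2 * cv b i j := by
      funext t
      exact pathcv a b t i j
    rw [e]
    have h1 := (((hasDerivAt_cos θ).fun_pow 2).mul_const (cv a i j)).fun_add
      (((hasDerivAt_sin θ).fun_pow 2).mul_const (cv b i j))
    refine h1.congr_deriv ?_
    unfold dl
    simp only [Nat.cast_ofNat, Nat.add_one_sub_one, pow_one]
    ring
  have hsum : HasDerivAt (fun θ => ∑ i, ∑ j, cv (path a b θ) i j *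
      (EG (path a b θ) (fun x => pw β x i) * EG (path a b θ) (fun x => pw β x j))) _ θ :=
    HasDerivAt.fun_sum fun i _ => HasDerivAt.fun_sum fun j _ =>
      (hcv i j).fun_mul ((der_q a b h0 β θ i).fun_mul (der_q a b h0 β θ j))
  have hP := (derG hn a b h0 β θ).fun_sub (hsum.const_mul (β ^ 2))
  exact hP.congr_deriv (cdp_fin (fun i j => cv (path a b θ) i j) (dl a b)
    (fun i j => cvs (path a b θ) i j) (fun i => EG (path a b θ) (fun x => pw β x i))
    (fun j => EG (path a b θ)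
        (fun x => 2 * β ^ 2 * (pw β x j * (qA (dl a b) β x - vv (dl a b) β x j))))
    (fun i => EG (path a b θ) (fun x => x i * qA (dl a b) β x)) β (sin θ * cos θ)
    (EG (path a b θ) (fun x => Lg β x * qA (dl a b) β x))
    (fun i => cdp_D (path a b θ) (dl a b) hΔ β i))
-- END cdp

-- BEGIN csg
private theorem csg_lg (β : ℝ) (x : Fin n → ℝ) (i : Fin n) : β * x i ≤ Lg β x := by
  have h : exp (β * x i) ≤ Sm β x := by
    unfold Sm
    exact Finset.single_le_sum (f := fun k => exp (β * x k)) (fun k _ => (Real.exp_pos _).le)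
      (Finset.mem_univ i)
  have h2 := Real.log_le_log (Real.exp_pos _) h
  rw [Real.log_exp] at h2
  exact h2

private theorem csg_qA (Δ : Fin n → Fin n → ℝ) (hΔ : ∀ i j, Δ i j ≤ 0) (β : ℝ)
    (x : Fin n → ℝ) : qA Δ β x ≤ 0 := by
  unfold qA
  exact Finset.sum_nonpos fun i _ => Finset.sum_nonpos fun j _ =>
    mul_nonpos_of_nonpos_of_nonneg (hΔ i j) (mul_nonneg (pw_nonneg β x i) (pw_nonneg β x j))

/-- the sign: with `q_i = E π_i` (`q ≥ 0`, `∑ q = 1`) the bracket is
`E (L - β ∑ q_i x_i) qA + ∑ Δ_ij q_i q_j`; `L ≥ β x_i` for every `i`, so `L ≥ β ∑ q_i x_i`, and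
`qA ≤ 0`, `Δ ≤ 0` -/
theorem Ph_sign (hn : 0 < n) {ι : Type} [Fintype ι] (A : Fin n → ι → ℝ) (Δ : Fin n → Fin n → ℝ)
    (hΔ : ∀ i j, Δ i j ≤ 0) (β : ℝ) (hβ : 0 ≤ β) :
    EG A (fun x => Lg β x * qA Δ β x) +
      ∑ i, ∑ j, Δ i j * (EG A (fun x => pw β x i) * EG A (fun x => pw β x j)) -
      β * ∑ i, EG A (fun x => pw β x i) * EG A (fun x => x i * qA Δ β x) ≤ 0 := by
  obtain ⟨q, hq⟩ : ∃ q : Fin n → ℝ, ∀ i, q i = EG A (fun x => pw β x i) := ⟨_, fun _ => rfl⟩
  have hq0 : ∀ i, 0 ≤ q i := fun i => by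
    rw [hq]
    exact integral_nonneg fun z => pw_nonneg β _ i
  have hq1 : ∑ i, q i = 1 := by
    have h1 : EG A (fun x => ∑ i, pw β x i) = ∑ i, EG A (fun x => pw β x i) :=
      EG_sum Finset.univ (fun i => Gr.pw β i) A
    have h2 : (fun x : Fin n → ℝ => ∑ i, pw β x i) = fun _ => (1 : ℝ) :=
      funext fun x => pw_sum hn β x
    rw [h2, EG_const] at h1
    rw [h1]
    exact Finset.sum_congr rfl fun i _ => hq i
  simp only [← hq]
  have hg1 : ∀ i : Fin n, Gr (fun x : Fin n → ℝ => x i * qA Δ β x) :=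
    fun i => (Gr.coord i).mul (Gr.qA Δ β)
  have hg2 : ∀ i : Fin n, Gr (fun x : Fin n → ℝ => q i * (x i * qA Δ β x)) :=
    fun i => (hg1 i).const_mul (q i)
  have hg3 : Gr (fun x : Fin n → ℝ => ∑ i, q i * (x i * qA Δ β x)) :=
    Gr.sum Finset.univ hg2
  have hg4 : Gr (fun x : Fin n → ℝ => Lg β x * qA Δ β x) := (Gr.Lg β).mul (Gr.qA Δ β)
  have hg5 : Gr (fun x : Fin n → ℝ => β * ∑ i, q i * (x i * qA Δ β x)) := hg3.const_mul β
  have e1 : EG A (fun x => Lg β x * qA Δ β x - β * ∑ i, q i * (x i * qA Δ β x)) =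
      EG A (fun x => Lg β x * qA Δ β x) - β * ∑ i, q i * EG A (fun x => x i * qA Δ β x) := by
    rw [EG_sub hg4 hg5, EG_const_mul, EG_sum Finset.univ hg2 A]
    congr 2
    exact Finset.sum_congr rfl fun i _ => EG_const_mul (q i) _ A
  have e2 : EG A (fun x => Lg β x * qA Δ β x - β * ∑ i, q i * (x i * qA Δ β x)) ≤ 0 := by
    have h := EG_mono (hg4.sub hg5) (Gr.const 0) (fun x => ?_) A
    · rw [EG_const] at h
      exact h
    · have h1 : Lg β x * qA Δ β x - β * ∑ i, q i * (x i * qA Δ β x) =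
          (Lg β x - ∑ i, q i * (β * x i)) * qA Δ β x := by
        rw [sub_mul, Finset.sum_mul, Finset.mul_sum]
        congr 1
        exact Finset.sum_congr rfl fun i _ => by ring
      rw [h1]
      refine mul_nonpos_of_nonneg_of_nonpos ?_ (csg_qA Δ hΔ β x)
      have h2 : ∑ i, q i * (β * x i) ≤ ∑ i, q i * Lg β x :=
        Finset.sum_le_sum fun i _ => mul_le_mul_of_nonneg_left (csg_lg β x i) (hq0 i)
      rw [← Finset.sum_mul, hq1, one_mul] at h2
      linarith
  have e3 : ∑ i, ∑ j, Δ i j * (q i * q j) ≤ 0 :=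
    Finset.sum_nonpos fun i _ => Finset.sum_nonpos fun j _ =>
      mul_nonpos_of_nonpos_of_nonneg (hΔ i j) (mul_nonneg (hq0 i) (hq0 j))
  rw [e1] at e2
  linarith
-- END csg

-- BEGIN cpl
/-- comparison: smaller covariances, larger value (`der_Ph`, `Ph_sign`, monotone on `[0, π/2]` as in
`FF_le`; ends by `SMx.path_zero`, `SMx.path_pi`, `pathcv`) -/
theorem Ph_le (hn : 0 < n) (a b : Fin n → Fin n → ℝ) (ha : ∀ i, cv a i i = 1)
    (hb : ∀ i, cv b i i = 1) (h : ∀ i j, cv b i j ≤ cv a i j) (β : ℝ) (hβ : 0 ≤ β) :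
    Ph β a ≤ Ph β b := by
  have hdl : ∀ i, dl a b i i = 0 := by
    intro i
    unfold dl
    rw [ha i, hb i, sub_self]
  have hdl' : ∀ i j, dl a b i j ≤ 0 := by
    intro i j
    unfold dl
    linarith [h i j]
  have hderiv := der_Ph hn a b hdl β
  have hmono : MonotoneOn (fun t => Ph β (path a b t)) (Set.Icc 0 (π / 2)) := by
    apply monotoneOn_of_deriv_nonneg (convex_Icc _ _)
    · exact fun t _ => (hderiv t).continuousAt.continuousWithinAt
    · exact fun t _ => (hderiv t).differentiableAt.differentiableWithinAt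
    · intro t ht
      rw [interior_Icc] at ht
      rw [(hderiv t).deriv]
      have hs : 0 ≤ sin t := sin_nonneg_of_nonneg_of_le_pi ht.1.le (by linarith [ht.2, pi_pos])
      have hcs : 0 ≤ cos t :=
        cos_nonneg_of_neg_pi_div_two_le_of_le (by linarith [ht.1, pi_pos]) ht.2.le
      have h2 := Ph_sign hn (path a b t) (dl a b) hdl' β hβ
      have h3 : 0 ≤ 2 * β ^ 2 * (sin t * cos t) := by positivity
      exact mul_nonneg_of_nonpos_of_nonpos (neg_nonpos.mpr h3) h2
  have gG : Gr (fun x : Fin n → ℝ => (Lg β x + 1) ^ 2) := ((Gr.Lg β).add (Gr.const 1)).sq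
  have h5 := hmono ⟨le_rfl, by positivity⟩ ⟨by positivity, le_rfl⟩ (by positivity : (0:ℝ) ≤ π / 2)
  simp only at h5
  have e0 : Ph β (path a b 0) = Ph β a := by
    unfold Ph
    rw [path_zero a b gG]
    congr 2
    refine Finset.sum_congr rfl fun i _ => Finset.sum_congr rfl fun j _ => ?_
    rw [path_zero a b (Gr.pw β i), path_zero a b (Gr.pw β j), pathcv, cos_zero, sin_zero]
    ring
  have e1 : Ph β (path a b (π / 2)) = Ph β b := by
    unfold Ph
    rw [path_pi a b gG]
    congr 2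
    refine Finset.sum_congr rfl fun i _ => Finset.sum_congr rfl fun j _ => ?_
    rw [path_pi a b (Gr.pw β i), path_pi a b (Gr.pw β j), pathcv, cos_pi_div_two, sin_pi_div_two]
    ring
  rw [e0, e1] at h5
  exact h5
-- END cpl

-- BEGIN cpf
/-- `Ph ≤ FF` (`gramn` at `u_i = E π_i`) -/
theorem Ph_le_FF {ι : Type} [Fintype ι] (A : Fin n → ι → ℝ) (β : ℝ) : Ph β A ≤ FF β A := by
  have h := gramn A (fun i => EG A (fun x => pw β x i))
  have e : ∑ i, ∑ j, cv A i j * (EG A (fun x => pw β x i) * EG A (fun x => pw β x j)) =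
      ∑ i, ∑ j, EG A (fun x => pw β x i) * EG A (fun x => pw β x j) * cv A i j :=
    Finset.sum_congr rfl fun i _ => Finset.sum_congr rfl fun j _ => by ring
  unfold Ph FF
  rw [e]
  have := mul_nonneg (sq_nonneg β) h
  linarith
-- END cpf

-- BEGIN cpp
private theorem cpp_val (hn : 0 < n) (β : ℝ) (hβ : 0 < β) (a : Fin n → Fin n → ℝ) (q : Fin n → ℝ)
    (hq : ∀ i, q i = EG a (fun x => pw β x i)) :
    EG a (fun x => (sm β x - ∑ i, q i * x i + 1 / β) ^ 2) =
      (1 / β) ^ 2 * EG a (fun x => (Lg β x + 1) ^ 2) - ∑ i, ∑ j, cv a i j * (q i * q j) := by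
  have gs : Gr (fun x : Fin n → ℝ => sm β x) := by
    have e : (fun x : Fin n → ℝ => sm β x) = fun x => 1 / β * Lg β x := rfl
    rw [e]
    exact (Gr.Lg β).const_mul _
  have gG : Gr (fun x : Fin n → ℝ => (Lg β x + 1) ^ 2) := ((Gr.Lg β).add (Gr.const 1)).sq
  have g1 : ∀ i : Fin n, Gr (fun x : Fin n → ℝ => (-2) * (sm β x * x i)) := fun i =>
    (gs.mul (Gr.coord i)).const_mul _
  have g2 : ∀ i : Fin n, Gr (fun x : Fin n → ℝ => (-2 / β) * x i) := fun i =>
    (Gr.coord i).const_mul _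
  have g3 : ∀ i j : Fin n, Gr (fun x : Fin n → ℝ => q j * (x i * x j)) := fun i j =>
    ((Gr.coord i).mul (Gr.coord j)).const_mul _
  have g4 : ∀ i : Fin n, Gr (fun x : Fin n → ℝ => ∑ j, q j * (x i * x j)) := fun i =>
    Gr.sum Finset.univ (g3 i)
  have g5 : ∀ i : Fin n, Gr (fun x : Fin n → ℝ => (-2) * (sm β x * x i) + (-2 / β) * x i) :=
    fun i => (g1 i).add (g2 i)
  have g6 : ∀ i : Fin n, Gr (fun x : Fin n → ℝ =>
      q i * ((-2) * (sm β x * x i) + (-2 / β) * x i + ∑ j, q j * (x i * x j))) :=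
    fun i => ((g5 i).add (g4 i)).const_mul _
  have e : (fun x : Fin n → ℝ => (sm β x - ∑ i, q i * x i + 1 / β) ^ 2) =
      fun x => (1 / β) ^ 2 * (Lg β x + 1) ^ 2 +
        ∑ i, q i * ((-2) * (sm β x * x i) + (-2 / β) * x i + ∑ j, q j * (x i * x j)) := by
    funext x
    have h1 : ∑ i, q i * ((-2) * (sm β x * x i) + (-2 / β) * x i + ∑ j, q j * (x i * x j)) =
        (-2 * sm β x + (-2 / β)) * (∑ i, q i * x i) + (∑ i, q i * x i) * (∑ j, q j * x j) := by
      rw [Finset.mul_sum, Finset.sum_mul, ← Finset.sum_add_distrib]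
      refine Finset.sum_congr rfl fun i _ => ?_
      have h2 : ∑ j, q j * (x i * x j) = x i * ∑ j, q j * x j := by
        rw [Finset.mul_sum]
        exact Finset.sum_congr rfl fun j _ => by ring
      rw [h2]
      ring
    have h3 : Lg β x = β * sm β x := by
      show Lg β x = β * (1 / β * Lg β x)
      field_simp
    rw [h1, h3]
    field_simp
    ring
  have e1 : ∀ i, EG a (fun x => q i * ((-2) * (sm β x * x i) + (-2 / β) * x i +
      ∑ j, q j * (x i * x j))) = -(∑ j, cv a i j * (q i * q j)) := by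
    intro i
    rw [EG_const_mul, EG_add (g5 i) (g4 i), EG_add (g1 i) (g2 i), EG_const_mul, EG_const_mul,
      mom1, EG_sum Finset.univ (g3 i), stein_sm hn β hβ.ne' a i]
    have h4 : ∀ j, EG a (fun x => q j * (x i * x j)) = q j * cv a i j := by
      intro j
      rw [EG_const_mul, mom2]
    have h5 : ∑ j, EG a (fun x => pw β x j) * cv a j i = ∑ j, q j * cv a i j := by
      refine Finset.sum_congr rfl fun j _ => ?_
      rw [hq j]
      congr 1
      unfold cv
      exact Finset.sum_congr rfl fun t _ => mul_comm _ _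
    have h6 : ∑ j, cv a i j * (q i * q j) = q i * ∑ j, q j * cv a i j := by
      rw [Finset.mul_sum]
      exact Finset.sum_congr rfl fun j _ => by ring
    rw [Finset.sum_congr rfl fun j _ => h4 j, h5, h6]
    ring
  rw [e, EG_add (gG.const_mul _) (Gr.sum Finset.univ g6), EG_const_mul, EG_sum Finset.univ g6,
    Finset.sum_congr rfl fun i _ => e1 i, Finset.sum_neg_distrib]
  ring

/-- the value of the projection: `G` and `F - ∑ q_i X_i` (`q_i = E π_i`) are projections of
`F = f_β(X)` (`SMx.exists_perp`, `SMx.stein_sm`); `E (G + 1/β)² ≤ E (F - ∑ q_i X_i + 1/β)²`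
(`G` is the orthogonal projection) and the right side is `Ph β a / β²` by `SMx.stein_sm`,
`SMx.transfer` -/
theorem perp_Ph (hn : 0 < n) {Ω : Type*} [MeasurableSpace Ω] (β : ℝ) (hβ : 0 < β)
    (P : Measure Ω) [IsProbabilityMeasure P] (X : Ω → Fin n → ℝ) (hX : CG P X)
    (a : Fin n → Fin n → ℝ) (ha : ∀ i j, cv a i j = ∫ ω, X ω i * X ω j ∂P) (G : Ω → ℝ)
    (hG : IsPerp P X (fun ω => sm β (X ω)) G) :
    ∫ ω, (G ω + 1 / β) ^ 2 ∂P ≤ (1 / β) ^ 2 * Ph β a := by
  have gs : Gr (fun x : Fin n → ℝ => sm β x) := by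
    have e : (fun x : Fin n → ℝ => sm β x) = fun x => 1 / β * Lg β x := rfl
    rw [e]
    exact (Gr.Lg β).const_mul _
  have gl : Gr (fun x : Fin n → ℝ => ∑ i, EG a (fun x => pw β x i) * x i) :=
    Gr.sum Finset.univ fun i => (Gr.coord i).const_mul _
  have g1 : Gr (fun x : Fin n → ℝ => sm β x - ∑ i, EG a (fun x => pw β x i) * x i) := gs.sub gl
  have g2 : Gr (fun x : Fin n → ℝ =>
      (sm β x - ∑ i, EG a (fun x => pw β x i) * x i + 1 / β) ^ 2) := (g1.add (Gr.const _)).sq
  obtain ⟨⟨c, hc⟩, ho⟩ := hG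
  have hP : IsPerp P X (fun ω => sm β (X ω) - ∑ i, EG a (fun x => pw β x i) * X ω i) G := by
    refine ⟨⟨fun i => c i - EG a (fun x => pw β x i), ?_⟩, ho⟩
    filter_upwards [hc] with ω h1
    have h3 : ∑ i, (c i - EG a (fun x => pw β x i)) * X ω i =
        ∑ i, c i * X ω i - ∑ i, EG a (fun x => pw β x i) * X ω i := by
      rw [← Finset.sum_sub_distrib]
      exact Finset.sum_congr rfl fun i _ => sub_mul _ _ _
    rw [h1, h3]
    ring
  have h := perp_le P X hX (fun ω => sm β (X ω) - ∑ i, EG a (fun x => pw β x i) * X ω i) G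
    (memLp_gr P X hX g1) (1 / β) hP
  refine h.trans (le_of_eq ?_)
  have ht := transfer P X hX a ha g2
  have hv := cpp_val hn β hβ a (fun i => EG a (fun x => pw β x i)) fun i => rfl
  have hE : ∫ ω, (sm β (X ω) - ∑ i, EG a (fun x => pw β x i) * X ω i + 1 / β) ^ 2 ∂P =
      (1 / β) ^ 2 * EG a (fun x => (Lg β x + 1) ^ 2) -
        ∑ i, ∑ j, cv a i j * (EG a (fun x => pw β x i) * EG a (fun x => pw β x j)) :=
    ht.trans hv
  rw [hE]
  unfold Ph
  have hb : (1 / β) ^ 2 * β ^ 2 = 1 := by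
    field_simp
  rw [mul_sub, ← mul_assoc ((1 / β) ^ 2) (β ^ 2), hb, one_mul]
-- END cpp

-- BEGIN csp
/-- the value for the simplex (as in the block `sft`: the projection term vanishes, `SMx.orthS`,
`SMx.perp_eq`) -/
theorem perp_spx (hn : 2 ≤ n) {Ω' : Type*} [MeasurableSpace Ω'] (β : ℝ) (hβ : 0 < β)
    (P' : Measure Ω') [IsProbabilityMeasure P'] (S : Ω' → Fin n → ℝ) (hS : CG P' S)
    (hS1 : ∀ i j, ∫ ω, S ω i * S ω j ∂P' = if i = j then 1 else -1 / ((n : ℝ) - 1))
    (G' : Ω' → ℝ) (hG' : IsPerp P' S (fun ω => sm β (S ω)) G') :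
    ∫ ω, (G' ω + 1 / β) ^ 2 ∂P' = (1 / β) ^ 2 * FF β (spx n) := by
  have hβ' : β ≠ 0 := hβ.ne'
  have hs : ∀ i j, cv (spx n) i j = ∫ ω, S ω i * S ω j ∂P' := by
    intro i j
    rw [hS1 i j, spx_cv hn i j]
  have gs : Gr (fun x : Fin n → ℝ => sm β x) := by
    have e : (fun x : Fin n → ℝ => sm β x) = fun x => 1 / β * Lg β x := rfl
    rw [e]
    exact (Gr.Lg β).const_mul _
  have gG : Gr (fun x : Fin n → ℝ => (Lg β x + 1) ^ 2) := ((Gr.Lg β).add (Gr.const 1)).sq
  have gO : ∀ i : Fin n, Gr (fun x : Fin n → ℝ => Lg β x * x i) := fun i => (Gr.Lg β).mul (Gr.coord i)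
  have e : ∀ x : Fin n → ℝ, (sm β x + 1 / β) ^ 2 = (1 / β) ^ 2 * (Lg β x + 1) ^ 2 := by
    intro x
    unfold sm Lg Sm
    ring
  have eS : ∫ ω, (sm β (S ω) + 1 / β) ^ 2 ∂P' =
      (1 / β) ^ 2 * EG (spx n) (fun x => (Lg β x + 1) ^ 2) := by
    rw [← transfer P' S hS (spx n) hs gG, ← integral_const_mul]
    exact integral_congr_ae (Filter.Eventually.of_forall fun ω => e (S ω))
  have hO : ∀ i, ∫ ω, sm β (S ω) * S ω i ∂P' = 0 := by
    intro i
    have h1 : ∫ ω, sm β (S ω) * S ω i ∂P' = 1 / β * ∫ ω, Lg β (S ω) * S ω i ∂P' := by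
      rw [← integral_const_mul]
      apply integral_congr_ae
      exact Filter.Eventually.of_forall fun ω => by
        show sm β (S ω) * S ω i = 1 / β * (Lg β (S ω) * S ω i)
        unfold sm Lg Sm
        ring
    rw [h1, transfer P' S hS (spx n) hs (gO i), orthS hn β i, mul_zero]
  rw [perp_eq P' S hS (fun ω => sm β (S ω)) G' (memLp_gr P' S hS gs) (1 / β) hG' hO, eS]
  rfl
-- END csp

end SMt
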