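import Pool.Agent.SM3.Bas
import Pool.Agent.SM3.Max

/-! MP_72ffec_pr: the soft-max projection inequality for block covariances.  Definitions. -/

open MeasureTheory ProbabilityTheory Real
open scoped BigOperators ENNReal

namespace SMt

open SMx

/-- the functional `E (L + 1)²` -/
noncomputable def FF {n : ℕ} {ι : Type} [Fintype ι] (β : ℝ) (A : Fin n → ι → ℝ) : ℝ :=
  EG A (fun x => (Lg β x + 1) ^ 2)

/-- `A_ij = E L π_i π_j` -/
noncomputable def AA {n : ℕ} {ι : Type} [Fintype ι] (β : ℝ) (A : Fin n → ι → ℝ) (i j : Fin n) : ℝ :=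
  EG A (fun x => Lg β x * (pw β x i * pw β x j))

/-- `(L - β x̄) (π_c - π_d) (π_e - π_f)` -/
noncomputable def GG {n : ℕ} (β : ℝ) (c d e f : Fin n) (x : Fin n → ℝ) : ℝ :=
  (Lg β x - β * av x) * ((pw β x c - pw β x d) * (pw β x e - pw β x f))

/-- covariance `1` on the diagonal, `a` inside the blocks, `b` across the blocks -/
def TV {n k m : ℕ} (e : Fin n ≃ Fin k × Fin m) (a b : ℝ) {ι : Type} [Fintype ι]
    (A : Fin n → ι → ℝ) : Prop :=
  ∀ i j, cv A i j = if i = j then 1 else if (e i).1 = (e j).1 then a else b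

/-- the representing matrix for the blocks `K`, `K'`: `X_x = (Y_x + Y_(R x)) / 2 ± σ g_l ± h l g_0`
(`l` the position in the block, `+` on `K`, `-` on `K'`, nothing elsewhere), `R` swaps the blocks -/
noncomputable def Bm {n k m : ℕ} (e : Fin n ≃ Fin k × Fin m) {ι : Type} (A : Fin n → ι → ℝ)
    (K K' : Fin k) (h : Fin m → ℝ) (σ : ℝ) (x : Fin n) : ι ⊕ (Fin m ⊕ Unit) → ℝ :=
  Sum.elim (fun t => (A x t + A (e.symm (Equiv.swap K K' (e x).1, (e x).2)) t) / 2)
    (Sum.elim
      (fun l => if (e x).2 = l then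
        (if (e x).1 = K then σ else if (e x).1 = K' then -σ else 0) else 0)
      (fun _ => if (e x).1 = K then h (e x).2 else if (e x).1 = K' then -h (e x).2 else 0))

end SMt
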