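import Pool.Agent.SMt.Defs

/-! MP_72ffec_pr: general lemmas for `n` coordinates (equal row sums, path, soft-max, maximum). -/

open MeasureTheory ProbabilityTheory Real
open scoped BigOperators ENNReal

namespace SMt

open SMx

-- BEGIN grg
theorem Gr_GG {n : ℕ} (β : ℝ) (c d e f : Fin n) : Gr (GG β c d e f) :=
  ((Gr.Lg β).sub (Gr.av.const_mul β)).mul
    (((Gr.pw β c).sub (Gr.pw β d)).mul ((Gr.pw β e).sub (Gr.pw β f)))

theorem Gr_LL {n : ℕ} (β : ℝ) (i j : Fin n) :
    Gr (fun x : Fin n → ℝ => Lg β x * (pw β x i * pw β x j)) :=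
  (Gr.Lg β).mul ((Gr.pw β i).mul (Gr.pw β j))
-- END grg

-- BEGIN csy
theorem cvs {n : ℕ} {ι : Type} [Fintype ι] (A : Fin n → ι → ℝ) (i j : Fin n) :
    cv A i j = cv A j i := by
  unfold cv
  exact Finset.sum_congr rfl fun k _ => mul_comm _ _

/-- `E |∑ u_i x_i|² ≥ 0` -/
theorem gramn {n : ℕ} {ι : Type} [Fintype ι] (A : Fin n → ι → ℝ) (u : Fin n → ℝ) :
    0 ≤ ∑ i, ∑ j, u i * u j * cv A i j := by
  have h : ∑ i, ∑ j, u i * u j * cv A i j = ∑ k, (∑ i, u i * A i k) ^ 2 := by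
    have e1 : ∀ k, (∑ i, u i * A i k) ^ 2 = ∑ i, ∑ j, u i * u j * (A i k * A j k) := by
      intro k
      rw [pow_two, Finset.sum_mul_sum]
      refine Finset.sum_congr rfl fun i _ => Finset.sum_congr rfl fun j _ => by ring
    simp only [e1, cv, Finset.mul_sum]
    have e2 : ∀ i, ∑ j, ∑ k, u i * u j * (A i k * A j k) =
        ∑ k, ∑ j, u i * u j * (A i k * A j k) := fun i => Finset.sum_comm
    rw [Finset.sum_congr rfl fun i _ => e2 i]
    exact Finset.sum_comm
  rw [h]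
  exact Finset.sum_nonneg fun k _ => sq_nonneg _

theorem AAs {n : ℕ} {ι : Type} [Fintype ι] (β : ℝ) (A : Fin n → ι → ℝ) (i j : Fin n) :
    AA β A i j = AA β A j i := by
  unfold AA
  congr 1
  funext x
  ring
-- END csy

-- BEGIN apr
private theorem apr_Sm {n : ℕ} (β : ℝ) (σ : Equiv.Perm (Fin n)) (x : Fin n → ℝ) :
    Sm β (fun k => x (σ k)) = Sm β x := by
  unfold Sm
  exact Equiv.sum_comp σ (fun k => exp (β * x k))

private theorem apr_Lg {n : ℕ} (β : ℝ) (σ : Equiv.Perm (Fin n)) (x : Fin n → ℝ) :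
    Lg β (fun k => x (σ k)) = Lg β x := by
  unfold Lg
  rw [apr_Sm]

private theorem apr_pw {n : ℕ} (β : ℝ) (σ : Equiv.Perm (Fin n)) (x : Fin n → ℝ) (i : Fin n) :
    pw β (fun k => x (σ k)) i = pw β x (σ i) := by
  unfold pw
  rw [apr_Sm]

/-- a permutation of the coordinates that keeps the covariance keeps `A_ij`
(`SM3.EG_congr` for `A` and `fun i => A (σ i)`; `L` symmetric, `π (x ∘ σ) i = π x (σ i)`) -/
theorem AA_perm {n : ℕ} {ι : Type} [Fintype ι] (β : ℝ) (A : Fin n → ι → ℝ)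
    (σ : Equiv.Perm (Fin n)) (h : ∀ i j, cv A (σ i) (σ j) = cv A i j) (i j : Fin n) :
    AA β A (σ i) (σ j) = AA β A i j := by
  have h1 : AA β A i j = AA β (fun k => A (σ k)) i j :=
    SM3.EG_congr A (fun k => A (σ k)) (fun k l => (h k l).symm) (Gr_LL β i j)
  rw [h1]
  unfold AA EG
  refine integral_congr_ae (Filter.Eventually.of_forall fun z => ?_)
  change Lg β (lin A z) * (pw β (lin A z) (σ i) * pw β (lin A z) (σ j)) =
    Lg β (lin (fun k => A (σ k)) z) *
      (pw β (lin (fun k => A (σ k)) z) i * pw β (lin (fun k => A (σ k)) z) j)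
  have h2 : lin (fun k => A (σ k)) z = fun k => lin A z (σ k) := rfl
  rw [h2, apr_Lg, apr_pw, apr_pw]
-- END apr

-- BEGIN avz
/-- equal row sums: the mean is independent of the differences (`SM3.stein_co` for every `l`,
`∑_j ∂_j (π_i π_j') = 0`) -/
theorem av_zero {n : ℕ} {ι : Type} [Fintype ι] (A : Fin n → ι → ℝ) (r : ℝ)
    (hr : ∀ l, ∑ j, cv A l j = r) (β : ℝ) (i j : Fin n) :
    EG A (fun x => av x * (pw β x i * pw β x j)) = 0 := by
  have hn : 0 < n := i.pos
  have hd : Der (fun x : Fin n → ℝ => pw β x i * pw β x j)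
      (fun q x => β * pw β x i * ((if i = q then 1 else 0) - pw β x q) * pw β x j +
        pw β x i * (β * pw β x j * ((if j = q then 1 else 0) - pw β x q))) :=
    (der_pw β i).mul (der_pw β j)
  have hg : Gr (fun x : Fin n → ℝ => pw β x i * pw β x j) := (Gr.pw β i).mul (Gr.pw β j)
  have hg1 : ∀ q, Gr (fun x : Fin n → ℝ =>
      β * pw β x i * ((if i = q then 1 else 0) - pw β x q) * pw β x j +
        pw β x i * (β * pw β x j * ((if j = q then 1 else 0) - pw β x q))) := fun q =>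
    ((((Gr.pw β i).const_mul β).mul ((Gr.const _).sub (Gr.pw β q))).mul (Gr.pw β j)).add
      ((Gr.pw β i).mul (((Gr.pw β j).const_mul β).mul ((Gr.const _).sub (Gr.pw β q))))
  have hst := fun l => SM3.stein_co A _ _ hd hg hg1 l
  have e1 : EG A (fun x => av x * (pw β x i * pw β x j)) =
      (∑ l, EG A (fun x => x l * (pw β x i * pw β x j))) / n := by
    unfold EG
    rw [← integral_finsetSum _ (fun l _ => ((Gr.coord l).mul hg).integrable A), ← integral_div]
    refine integral_congr_ae (Filter.Eventually.of_forall fun z => ?_)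
    show av (lin A z) * (pw β (lin A z) i * pw β (lin A z) j) =
      (∑ l, lin A z l * (pw β (lin A z) i * pw β (lin A z) j)) / n
    rw [av, ← Finset.sum_mul]
    ring
  have e2 : ∀ q, ∑ l, cv A l q = r := fun q => by
    rw [← hr q]
    refine Finset.sum_congr rfl fun l _ => ?_
    unfold cv
    exact Finset.sum_congr rfl fun t _ => mul_comm _ _
  have e3 : ∑ q, EG A (fun x => β * pw β x i * ((if i = q then 1 else 0) - pw β x q) * pw β x j +
        pw β x i * (β * pw β x j * ((if j = q then 1 else 0) - pw β x q))) = 0 := by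
    unfold EG
    rw [← integral_finsetSum _ (fun q _ => (hg1 q).integrable A)]
    refine (integral_congr_ae (Filter.Eventually.of_forall fun z => ?_)).trans
      (integral_zero (ι → ℝ) ℝ)
    have hp := pw_sum hn β (lin A z)
    have h1 : ∑ q, ((if i = q then (1 : ℝ) else 0) - pw β (lin A z) q) = 0 := by
      rw [Finset.sum_sub_distrib, hp, Finset.sum_ite_eq, if_pos (Finset.mem_univ i), sub_self]
    have h2 : ∑ q, ((if j = q then (1 : ℝ) else 0) - pw β (lin A z) q) = 0 := by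
      rw [Finset.sum_sub_distrib, hp, Finset.sum_ite_eq, if_pos (Finset.mem_univ j), sub_self]
    show ∑ q, (β * pw β (lin A z) i * ((if i = q then 1 else 0) - pw β (lin A z) q) *
        pw β (lin A z) j + pw β (lin A z) i * (β * pw β (lin A z) j *
          ((if j = q then 1 else 0) - pw β (lin A z) q))) = 0
    have h3 : ∑ q, (β * pw β (lin A z) i * ((if i = q then 1 else 0) - pw β (lin A z) q) *
        pw β (lin A z) j + pw β (lin A z) i * (β * pw β (lin A z) j *
          ((if j = q then 1 else 0) - pw β (lin A z) q))) =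
        β * pw β (lin A z) i * pw β (lin A z) j *
          (∑ q, ((if i = q then (1 : ℝ) else 0) - pw β (lin A z) q)) +
        β * pw β (lin A z) i * pw β (lin A z) j *
          (∑ q, ((if j = q then (1 : ℝ) else 0) - pw β (lin A z) q)) := by
      rw [Finset.mul_sum, Finset.mul_sum, ← Finset.sum_add_distrib]
      exact Finset.sum_congr rfl fun q _ => by ring
    rw [h3, h1, h2]
    ring
  rw [e1, Finset.sum_congr rfl (fun l _ => hst l), Finset.sum_comm]
  have e4 : ∀ q, ∑ l, cv A l q * EG A (fun x =>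
      β * pw β x i * ((if i = q then 1 else 0) - pw β x q) * pw β x j +
        pw β x i * (β * pw β x j * ((if j = q then 1 else 0) - pw β x q))) =
      r * EG A (fun x =>
      β * pw β x i * ((if i = q then 1 else 0) - pw β x q) * pw β x j +
        pw β x i * (β * pw β x j * ((if j = q then 1 else 0) - pw β x q))) := fun q => by
    rw [← Finset.sum_mul, e2 q]
  rw [Finset.sum_congr rfl (fun q _ => e4 q), ← Finset.mul_sum, e3]
  simp
-- END avz

-- BEGIN aeq
private theorem aeq_gpp {n : ℕ} (β : ℝ) (i j : Fin n) :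
    Gr (fun x : Fin n → ℝ => pw β x i * pw β x j) :=
  (Gr.pw β i).mul (Gr.pw β j)

private theorem aeq_gL {n : ℕ} (β : ℝ) :
    Gr (fun x : Fin n → ℝ => Lg β x - β * av x) :=
  (Gr.Lg β).sub (Gr.av.const_mul β)

/-- `A_ij = E (L - β x̄) π_i π_j` -/
theorem AA_eq {n : ℕ} {ι : Type} [Fintype ι] (A : Fin n → ι → ℝ) (r : ℝ)
    (hr : ∀ l, ∑ j, cv A l j = r) (β : ℝ) (i j : Fin n) :
    AA β A i j = EG A (fun x => (Lg β x - β * av x) * (pw β x i * pw β x j)) := by
  have e : (fun x : Fin n → ℝ => (Lg β x - β * av x) * (pw β x i * pw β x j)) =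
      fun x => Lg β x * (pw β x i * pw β x j) - β * (av x * (pw β x i * pw β x j)) := by
    funext x; ring
  have g2 : Gr (fun x : Fin n → ℝ => av x * (pw β x i * pw β x j)) :=
    Gr.av.mul (aeq_gpp β i j)
  rw [e, EG_sub ((Gr.Lg β).mul (aeq_gpp β i j)) (g2.const_mul β), EG_const_mul,
    av_zero A r hr β i j, mul_zero, sub_zero]
  rfl

theorem AA_nonneg {n : ℕ} {ι : Type} [Fintype ι] (A : Fin n → ι → ℝ) (r : ℝ)
    (hr : ∀ l, ∑ j, cv A l j = r) (β : ℝ) (i j : Fin n) : 0 ≤ AA β A i j := by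
  have hn : 0 < n := lt_of_le_of_lt (Nat.zero_le _) i.isLt
  have h0 : (0 : ℝ) = EG A (fun _ => (0 : ℝ)) := (EG_const 0 A).symm
  rw [AA_eq A r hr, h0]
  refine EG_mono (Gr.const 0) ((aeq_gL β).mul (aeq_gpp β i j)) (fun x => ?_) A
  have h1 := Lg_ge hn β x
  have h2 : (0 : ℝ) ≤ Real.log n := Real.log_natCast_nonneg n
  exact mul_nonneg (by linarith) (mul_nonneg (pw_nonneg β x i) (pw_nonneg β x j))

theorem GG_eq {n : ℕ} {ι : Type} [Fintype ι] (A : Fin n → ι → ℝ) (r : ℝ)
    (hr : ∀ l, ∑ j, cv A l j = r) (β : ℝ) (c d e f : Fin n) :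
    EG A (GG β c d e f) = AA β A c e - AA β A c f - AA β A d e + AA β A d f := by
  have g : ∀ i j : Fin n, Gr (fun x : Fin n → ℝ =>
      (Lg β x - β * av x) * (pw β x i * pw β x j)) :=
    fun i j => (aeq_gL β).mul (aeq_gpp β i j)
  have h : GG β c d e f = fun x =>
      (((Lg β x - β * av x) * (pw β x c * pw β x e)
        - (Lg β x - β * av x) * (pw β x c * pw β x f))
        - (Lg β x - β * av x) * (pw β x d * pw β x e))
        + (Lg β x - β * av x) * (pw β x d * pw β x f) := by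
    funext x; unfold GG; ring
  rw [h, EG_add (((g c e).sub (g c f)).sub (g d e)) (g d f),
    EG_sub ((g c e).sub (g c f)) (g d e), EG_sub (g c e) (g c f),
    AA_eq A r hr β c e, AA_eq A r hr β c f, AA_eq A r hr β d e, AA_eq A r hr β d f]
-- END aeq

-- BEGIN eqa
theorem EG_qAn {n : ℕ} {ι : Type} [Fintype ι] (A : Fin n → ι → ℝ) (Δ : Fin n → Fin n → ℝ)
    (β : ℝ) : EG A (fun x => Lg β x * qA Δ β x) = ∑ i, ∑ j, Δ i j * AA β A i j := by
  have hg : ∀ i j : Fin n, Gr (fun x : Fin n → ℝ => Δ i j * (Lg β x * (pw β x i * pw β x j))) :=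
    fun i j => (Gr_LL β i j).const_mul _
  have e : (fun x : Fin n → ℝ => Lg β x * qA Δ β x) =
      fun x => ∑ i, ∑ j, Δ i j * (Lg β x * (pw β x i * pw β x j)) := by
    funext x
    unfold qA
    rw [Finset.mul_sum]
    refine Finset.sum_congr rfl fun i _ => ?_
    rw [Finset.mul_sum]
    refine Finset.sum_congr rfl fun j _ => by ring
  rw [e, EG_sum Finset.univ (fun i => Gr.sum Finset.univ (hg i))]
  refine Finset.sum_congr rfl fun i _ => ?_
  rw [EG_sum Finset.univ (hg i)]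
  exact Finset.sum_congr rfl fun j _ => EG_const_mul _ _ _
-- END eqa

-- BEGIN ffl
/-- copy of `SM3.FF_le` for `n` coordinates -/
theorem FF_le {n : ℕ} (hn : 0 < n) (a b : Fin n → Fin n → ℝ) (ha : ∀ i, cv a i i = 1)
    (hb : ∀ i, cv b i i = 1) (β : ℝ)
    (h : ∀ θ, 0 ≤ θ → θ ≤ π / 2 → EG (path a b θ) (fun x => Lg β x * qA (dl a b) β x) ≤ 0) :
    FF β a ≤ FF β b := by
  have hdl : ∀ i, dl a b i i = 0 := by
    intro i
    unfold dl
    rw [ha i, hb i, sub_self]
  have hderiv := derG hn a b hdl β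
  have hmono : MonotoneOn (fun t => EG (path a b t) (fun x => (Lg β x + 1) ^ 2))
      (Set.Icc 0 (π / 2)) := by
    apply monotoneOn_of_deriv_nonneg (convex_Icc _ _)
    · exact fun t _ => (hderiv t).continuousAt.continuousWithinAt
    · exact fun t _ => (hderiv t).differentiableAt.differentiableWithinAt
    · intro t ht
      rw [interior_Icc] at ht
      rw [(hderiv t).deriv]
      have hs : 0 ≤ sin t := sin_nonneg_of_nonneg_of_le_pi ht.1.le (by linarith [ht.2, pi_pos])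
      have hcs : 0 ≤ cos t :=
        cos_nonneg_of_neg_pi_div_two_le_of_le (by linarith [ht.1, pi_pos]) ht.2.le
      have h2 := h t ht.1.le ht.2.le
      have h3 : 0 ≤ 2 * β ^ 2 * (sin t * cos t) := by positivity
      nlinarith [mul_nonneg h3 (neg_nonneg.mpr h2)]
  have gG : Gr (fun x : Fin n → ℝ => (Lg β x + 1) ^ 2) := ((Gr.Lg β).add (Gr.const 1)).sq
  have h5 := hmono ⟨le_rfl, by positivity⟩ ⟨by positivity, le_rfl⟩ (by positivity : (0:ℝ) ≤ π / 2)
  simp only at h5
  rw [path_zero a b gG, path_pi a b gG] at h5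
  exact h5
-- END ffl

variable {n k m : ℕ}

-- BEGIN sft
/-- the soft-max inequality from the comparison of the functionals (copy of `SM3.soft3`) -/
theorem soft_of (hn : 2 ≤ n) {Ω : Type*} [MeasurableSpace Ω] (β : ℝ) (hβ : 0 < β)
    (P : Measure Ω) [IsProbabilityMeasure P] {Ω' : Type*} [MeasurableSpace Ω'] (P' : Measure Ω')
    [IsProbabilityMeasure P'] (X : Ω → Fin n → ℝ) (S : Ω' → Fin n → ℝ) (hX : CG P X) (hS : CG P' S)
    (hS1 : ∀ i j, ∫ ω, S ω i * S ω j ∂P' = if i = j then 1 else -1 / ((n : ℝ) - 1))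
    (hcore : ∀ A : Fin n → Fin n → ℝ, (∀ i j, cv A i j = ∫ ω, X ω i * X ω j ∂P) →
      FF β A ≤ FF β (spx n))
    (G : Ω → ℝ) (G' : Ω' → ℝ) (hG : IsPerp P X (fun ω => sm β (X ω)) G)
    (hG' : IsPerp P' S (fun ω => sm β (S ω)) G') :
    ∫ ω, (G ω + 1 / β) ^ 2 ∂P ≤ ∫ ω, (G' ω + 1 / β) ^ 2 ∂P' := by
  obtain ⟨a, ha⟩ := root P X hX
  have hs : ∀ i j, cv (spx n) i j = ∫ ω, S ω i * S ω j ∂P' := by
    intro i j
    rw [hS1 i j, spx_cv hn i j]
  have gs : Gr (fun x : Fin n → ℝ => sm β x) := by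
    have e : (fun x : Fin n → ℝ => sm β x) = fun x => 1 / β * Lg β x := rfl
    rw [e]
    exact (Gr.Lg β).const_mul _
  have gG : Gr (fun x : Fin n → ℝ => (Lg β x + 1) ^ 2) := ((Gr.Lg β).add (Gr.const 1)).sq
  have gO : ∀ i : Fin n, Gr (fun x : Fin n → ℝ => Lg β x * x i) := fun i => (Gr.Lg β).mul (Gr.coord i)
  have e : ∀ x : Fin n → ℝ, (sm β x + 1 / β) ^ 2 = (1 / β) ^ 2 * (Lg β x + 1) ^ 2 := by
    intro x
    unfold sm Lg Sm
    ring
  have eX : ∫ ω, (sm β (X ω) + 1 / β) ^ 2 ∂P = (1 / β) ^ 2 * EG a (fun x => (Lg β x + 1) ^ 2) := by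
    rw [← transfer P X hX a ha gG, ← integral_const_mul]
    exact integral_congr_ae (Filter.Eventually.of_forall fun ω => e (X ω))
  have eS : ∫ ω, (sm β (S ω) + 1 / β) ^ 2 ∂P' =
      (1 / β) ^ 2 * EG (spx n) (fun x => (Lg β x + 1) ^ 2) := by
    rw [← transfer P' S hS (spx n) hs gG, ← integral_const_mul]
    exact integral_congr_ae (Filter.Eventually.of_forall fun ω => e (S ω))
  have hO : ∀ i, ∫ ω, sm β (S ω) * S ω i ∂P' = 0 := by
    intro i
    have h1 : ∫ ω, sm β (S ω) * S ω i ∂P' = 1 / β * ∫ ω, Lg β (S ω) * S ω i ∂P' := by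
      rw [← integral_const_mul]
      apply integral_congr_ae
      exact Filter.Eventually.of_forall fun ω => by
        show sm β (S ω) * S ω i = 1 / β * (Lg β (S ω) * S ω i)
        unfold sm Lg Sm
        ring
    rw [h1, transfer P' S hS (spx n) hs (gO i), orthS hn β i, mul_zero]
  rw [perp_eq P' S hS (fun ω => sm β (S ω)) G' (memLp_gr P' S hS gs) (1 / β) hG' hO, eS]
  refine (perp_le P X hX (fun ω => sm β (X ω)) G (memLp_gr P X hX gs) (1 / β) hG).trans ?_
  rw [eX]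
  exact mul_le_mul_of_nonneg_left (hcore a ha) (sq_nonneg _)
-- END sft

-- BEGIN smn
/-- `max ≤ f_β ≤ max + log n / β` -/
theorem sm_bounds (hn : 0 < n) (β : ℝ) (hβ : 0 < β) (x : Fin n → ℝ) :
    (⨆ i, x i) ≤ sm β x ∧ sm β x ≤ (⨆ i, x i) + log n / β := by
  haveI : Nonempty (Fin n) := ⟨⟨0, hn⟩⟩
  obtain ⟨i0, hi0⟩ := exists_eq_ciSup_of_finite (f := x)
  have hle : ∀ i, x i ≤ ⨆ i, x i := fun i => le_ciSup (Set.finite_range x).bddAbove i
  obtain ⟨M, hM⟩ : ∃ M : ℝ, M = ⨆ i, x i := ⟨_, rfl⟩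
  rw [← hM] at hi0 hle ⊢
  have hnR : (0 : ℝ) < n := by exact_mod_cast hn
  have hlow : exp (β * M) ≤ ∑ k, exp (β * x k) := by
    rw [← hi0]
    exact Finset.single_le_sum (f := fun k => exp (β * x k)) (fun k _ => (exp_pos _).le)
      (Finset.mem_univ i0)
  have hSpos : 0 < ∑ k, exp (β * x k) := lt_of_lt_of_le (exp_pos _) hlow
  have hup : ∑ k, exp (β * x k) ≤ n * exp (β * M) := by
    have h := Finset.sum_le_card_nsmul Finset.univ (fun k => exp (β * x k)) (exp (β * M))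
      (fun k _ => exp_le_exp.2 (mul_le_mul_of_nonneg_left (hle k) hβ.le))
    rwa [Finset.card_univ, Fintype.card_fin, nsmul_eq_mul] at h
  have l1 : β * M ≤ log (∑ k, exp (β * x k)) := by
    rw [← log_exp (β * M)]
    exact log_le_log (exp_pos _) hlow
  have l2 : log (∑ k, exp (β * x k)) ≤ log n + β * M := by
    have h := log_le_log hSpos hup
    rwa [log_mul hnR.ne' (exp_pos _).ne', log_exp] at h
  unfold sm
  constructor
  · rw [one_div, ← div_eq_inv_mul, le_div_iff₀ hβ]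
    linarith
  · rw [one_div, ← div_eq_inv_mul, div_le_iff₀ hβ, add_mul, div_mul_cancel₀ _ hβ.ne']
    linarith
-- END smn

-- BEGIN gmx
theorem gr_max (hn : 0 < n) : Gr (fun x : Fin n → ℝ => ⨆ i, x i) := by
  have : Nonempty (Fin n) := ⟨⟨0, hn⟩⟩
  have hc : Continuous fun x : Fin n → ℝ => ⨆ i, x i := by
    have he : (fun x : Fin n → ℝ => ⨆ i, x i) =
        fun x => Finset.univ.sup' Finset.univ_nonempty (fun i => x i) := by
      funext x
      exact (Finset.sup'_univ_eq_ciSup _).symm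
    rw [he]
    exact Continuous.finset_sup'_apply _ (fun i _ => continuous_apply i)
  refine ⟨hc, 1, 1, zero_le_one, zero_le_one, fun x => ?_⟩
  rw [one_mul, one_mul]
  obtain ⟨i, hi⟩ := exists_eq_ciSup_of_finite (f := x)
  have h : |⨆ i, x i| ≤ ∑ i, |x i| := by
    rw [← hi]
    exact Finset.single_le_sum (f := fun i => |x i|) (fun j _ => abs_nonneg (x j))
      (Finset.mem_univ i)
  exact h.trans ((le_add_of_nonneg_right zero_le_one).trans (add_one_le_exp _))
-- END gmx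

-- BEGIN mxs
/-- from the soft-max to the maximum (copy of `SM3.max_of_soft` with `⨆ i, x i` and `log n`) -/
theorem max_of_soft (hn : 0 < n) {Ω : Type*} [MeasurableSpace Ω] (P : Measure Ω)
    [IsProbabilityMeasure P]
    {Ω' : Type*} [MeasurableSpace Ω'] (P' : Measure Ω') [IsProbabilityMeasure P']
    (X : Ω → Fin n → ℝ) (S : Ω' → Fin n → ℝ) (hX : CG P X) (hS : CG P' S)
    (hsoft : ∀ β : ℝ, 0 < β → ∀ (G : Ω → ℝ) (G' : Ω' → ℝ), IsPerp P X (fun ω => sm β (X ω)) G →
      IsPerp P' S (fun ω => sm β (S ω)) G' →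
      ∫ ω, (G ω + 1 / β) ^ 2 ∂P ≤ ∫ ω, (G' ω + 1 / β) ^ 2 ∂P')
    (G : Ω → ℝ) (G' : Ω' → ℝ)
    (hG : IsPerp P X (fun ω => ⨆ i, X ω i) G)
    (hG' : IsPerp P' S (fun ω => ⨆ i, S ω i) G') :
    ∫ ω, G ω ^ 2 ∂P ≤ ∫ ω, G' ω ^ 2 ∂P' := by
  have gs : ∀ β : ℝ, Gr (fun x : Fin n → ℝ => sm β x) := by
    intro β
    have e : (fun x : Fin n → ℝ => sm β x) = fun x => 1 / β * Lg β x := rfl
    rw [e]
    exact (Gr.Lg β).const_mul _
  have hn1 : (1 : ℝ) ≤ (n : ℝ) := by exact_mod_cast hn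
  refine SM3.lim_step _ _ (2 * log n ^ 2 + 2) fun β hβ => ?_
  obtain ⟨H, hH⟩ := exists_perp hn β hβ.ne' P X hX
  obtain ⟨H', hH'⟩ := exists_perp hn β hβ.ne' P' S hS
  have hc : 0 ≤ log n / β := div_nonneg (Real.log_nonneg hn1) hβ.le
  have hb : ∀ x : Fin n → ℝ, |(⨆ i, x i) - sm β x| ≤ log n / β := by
    intro x
    obtain ⟨h1, h2⟩ := sm_bounds hn β hβ x
    rw [abs_le]
    constructor <;> linarith
  have hcal : (1 + 1 / (1 / β)) * (2 * (log n / β) ^ 2 + 2 * (1 / β) ^ 2) =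
      (1 + β) * ((2 * log n ^ 2 + 2) / β ^ 2) := by
    field_simp
  have s1 := (SM3.comp_step P X hX (fun ω => ⨆ i, X ω i) (fun ω => sm β (X ω))
    G H (memLp_gr P X hX (gr_max hn)) (memLp_gr P X hX (gs β)) hG hH (1 / β) (log n / β) (1 / β)
    (by positivity) hc (fun ω => hb (X ω))).1
  have s2 := (SM3.comp_step P' S hS (fun ω => ⨆ i, S ω i) (fun ω => sm β (S ω))
    G' H' (memLp_gr P' S hS (gr_max hn)) (memLp_gr P' S hS (gs β)) hG' hH' (1 / β) (log n / β)
    (1 / β) (by positivity) hc (fun ω => hb (S ω))).2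
  rw [hcal] at s1 s2
  exact ⟨_, _, s1, hsoft β hβ H H' hH hH', s2⟩
-- END mxs

end SMt
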